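import Pool.Agent.helper90.IV.Spec

set_option autoImplicit false

open scoped BigOperators

namespace Pool.Agent.helper21.IV

open Pool.Agent.helper23.TH Pool.Agent.KS Pool.Agent.IV

noncomputable section

open Classical

theorem nb_ne {I : Type} (T : Tr I) (u j : I) (h : T.nb u j) : j ≠ u := by
  rintro rfl
  rcases h with h | h <;> exact lt_irrefl _ (T.lt _ _ h)

theorem lnb_lvv {I : Type} (T : Tr I) (gh : T.R → Option I) (u : I) (t : I ⊕ T.R)
    (h : lnb T gh u t) : lvv T gh t := by
  rcases t with j | r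
  · exact trivial
  · exact h.1

theorem lnb_ne {I : Type} (T : Tr I) (gh : T.R → Option I) (u : I) (t : I ⊕ T.R)
    (h : lnb T gh u t) : t ≠ Sum.inl u := by
  rcases t with j | r
  · intro e
    exact nb_ne T u j h (Sum.inl.inj e)
  · intro e
    cases e

theorem lnb_adj {I : Type} [Fintype I] (T : Tr I) {V : Type} [Fintype V] (A : V → V → Prop)
    (hs : ∀ a b, A a b → A b a) (gh : T.R → Option I)
    (f : (I → V) × (T.R → V)) (hf : f ∈ Hm T A gh) (u : I) (t : I ⊕ T.R)
    (h : lnb T gh u t) : A (f.1 u) (Sum.elim f.1 f.2 t) := by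
  have hh := (Finset.mem_filter.1 hf).2.1
  rcases t with j | r
  · rcases h with h | h
    · exact hh.1 _ _ h
    · exact hs _ _ (hh.1 _ _ h)
  · obtain ⟨_, h2⟩ := h
    have := hh.2 r
    rw [h2] at this
    exact this

/-- the heavy stars -/
def Hst {V : Type} [Fintype V] (A : V → V → Prop) (Ch s : ℕ) : Finset (V × (Fin s → V)) :=
  Finset.univ.filter fun q => (∀ k, A q.1 (q.2 k)) ∧ Ch ≤ cn A q.2

theorem Hst_card {V : Type} [Fintype V] (A : V → V → Prop) (Ch s : ℕ) :
    (Hst A Ch s).card = hst A Ch s := by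
  unfold Hst hst
  rw [Finset.card_filter, Fintype.sum_prod_type]
  refine Finset.sum_congr rfl fun z _ => ?_
  rw [Finset.card_filter]

theorem fib_bound (hTE : TE_stmt) {I : Type} [Fintype I] (T : Tr I) {V : Type} [Fintype V]
    (A : V → V → Prop) (s Ch : ℕ) (Δ : ℝ) (gh : T.R → Option I) (hs : ∀ a b, A a b → A b a)
    (hΔ : 0 < Δ) (hd : ∀ v, (deg A v : ℝ) ≤ Δ) (u : I) (a : Fin s → I ⊕ T.R)
    (ha : Function.Injective a) (hl : ∀ k, lnb T gh u (a k)) (q : V × (Fin s → V))
    (S : Finset ((I → V) × (T.R → V))) (hS : S ⊆ Hm T A gh) :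
    ((S.filter fun f => (f.1 u, fun k => Sum.elim f.1 f.2 (a k)) = q).card : ℝ) * Δ ^ (s + 1) ≤
      Δ ^ (Fintype.card I + nl T gh) := by
  rcases (S.filter fun f => (f.1 u, fun k => Sum.elim f.1 f.2 (a k)) = q).eq_empty_or_nonempty
    with h0 | ⟨f0, h0⟩
  · rw [h0]
    simp only [Finset.card_empty, Nat.cast_zero, zero_mul]
    positivity
  · obtain ⟨h1, h2⟩ := Finset.mem_filter.1 h0
    set Z : Finset (I ⊕ T.R) := insert (Sum.inl u) (Finset.univ.image a) with hZ
    have hZc : Z.card = s + 1 := by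
      rw [hZ, Finset.card_insert_of_notMem, Finset.card_image_of_injective _ ha]
      · simp
      · intro hm
        obtain ⟨k, _, hk⟩ := Finset.mem_image.1 hm
        exact lnb_ne T gh u (a k) (hl k) hk
    have key := hTE I T V A Δ gh hs hΔ hd Z (Sum.elim f0.1 f0.2) ⟨Sum.inl u, by simp [hZ]⟩ (by
      intro t ht
      rw [hZ, Finset.mem_insert, Finset.mem_image] at ht
      rcases ht with rfl | ⟨k, _, rfl⟩
      · exact trivial
      · exact lnb_lvv T gh u _ (hl k))
    rw [hZc] at key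
    refine le_trans ?_ key
    refine mul_le_mul_of_nonneg_right ?_ (by positivity)
    refine Nat.cast_le.2 (Finset.card_le_card ?_)
    intro f hf
    obtain ⟨h3, h4⟩ := Finset.mem_filter.1 hf
    rw [Finset.mem_filter]
    refine ⟨hS h3, fun t ht => ?_⟩
    rw [hZ, Finset.mem_insert, Finset.mem_image] at ht
    have e : (f.1 u, fun k => Sum.elim f.1 f.2 (a k)) =
      (f0.1 u, fun k => Sum.elim f0.1 f0.2 (a k)) := h4.trans h2.symm
    rcases ht with rfl | ⟨k, _, rfl⟩
    · exact congrArg Prod.fst e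
    · exact congrFun (congrArg Prod.snd e) k

theorem HVY (hHLB : HLB_stmt) (hTE : TE_stmt) : HVY_stmt := by
  intro I _ T s κ δ hκ hδ
  set M : ℕ := Fintype.card (I × (Fin s → I ⊕ T.R)) with hM
  set B : ℝ := κ ^ (Fintype.card I + Fintype.card T.R) with hB
  have hB0 : 0 < B := by positivity
  refine ⟨δ / ((M + 1) * B), by positivity, ?_⟩
  intro V K _ A lam Ch d KE ε K₀ hE hε gh hgh
  have hs := hE.pr.symm
  have hd0 : 0 < d := lt_of_lt_of_le one_pos hE.d1
  have hκ0 : 0 < κ := lt_of_lt_of_le one_pos hκ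
  have hΔ : 0 < κ * d := mul_pos hκ0 hd0
  set n : ℝ := (Fintype.card V : ℝ) with hn
  have hn0 : 0 < n := by
    rw [hn]; exact_mod_cast hE.pos
  set H : ℝ := ((Hm T A gh).card : ℝ) with hH
  set N : ℕ := Fintype.card I + nl T gh with hN
  have hI : 0 < Fintype.card I := by
    obtain ⟨o, _, _⟩ := T.root
    exact Fintype.card_pos_iff.2 ⟨o⟩
  have hlb : n * d ^ (N - 1) ≤ H := by
    have := hHLB I T V A d gh hs hd0.le hE.lo hgh
    have e : Fintype.card I - 1 + nl T gh = N - 1 := by omega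
    rw [e] at this
    exact this
  have hnl : nl T gh ≤ Fintype.card T.R := by
    unfold nl
    exact Finset.card_le_univ _
  have hκN : κ ^ N ≤ B := by
    rw [hB]
    exact pow_le_pow_right₀ hκ (by omega)
  have hH0 : 0 ≤ H := by rw [hH]; positivity
  -- the bad sets
  let Sp : I × (Fin s → I ⊕ T.R) → Finset ((I → V) × (T.R → V)) := fun p =>
    (Hm T A gh).filter fun f => (Function.Injective p.2 ∧ ∀ k, lnb T gh p.1 (p.2 k)) ∧
      Ch ≤ cn A (fun k => Sum.elim f.1 f.2 (p.2 k))
  have hsub : ((Hm T A gh).filter fun f => ¬ NH T A s Ch gh f.1 f.2) ⊆ Finset.univ.biUnion Sp := by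
    intro f hf
    obtain ⟨h1, h2⟩ := Finset.mem_filter.1 hf
    unfold NH at h2
    push Not at h2
    obtain ⟨u, a, h3, h4, h5⟩ := h2
    rw [Finset.mem_biUnion]
    exact ⟨(u, a), Finset.mem_univ _, Finset.mem_filter.2 ⟨h1, ⟨h3, h4⟩, h5⟩⟩
  have hone : ∀ p, ((Sp p).card : ℝ) ≤ δ / ((M + 1) * B) * B * H := by
    intro p
    by_cases hp : Function.Injective p.2 ∧ ∀ k, lnb T gh p.1 (p.2 k)
    · have hSH : Sp p ⊆ Hm T A gh := Finset.filter_subset _ _
      have hmaps : ∀ f ∈ Sp p, (f.1 p.1, fun k => Sum.elim f.1 f.2 (p.2 k)) ∈ Hst A Ch s := by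
        intro f hf
        obtain ⟨h1, _, h3⟩ := Finset.mem_filter.1 hf
        unfold Hst
        rw [Finset.mem_filter]
        exact ⟨Finset.mem_univ _, fun k => lnb_adj T A hs gh f h1 p.1 _ (hp.2 k), h3⟩
      have hcard := Finset.card_eq_sum_card_fiberwise
        (f := fun f : (I → V) × (T.R → V) => (f.1 p.1, fun k => Sum.elim f.1 f.2 (p.2 k)))
        (s := Sp p) (t := Hst A Ch s) hmaps
      have hbd : ((Sp p).card : ℝ) * (κ * d) ^ (s + 1) ≤ (hst A Ch s : ℝ) * (κ * d) ^ N := by
        rw [hcard, Nat.cast_sum, Finset.sum_mul, ← Hst_card, ← nsmul_eq_mul]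
        refine Finset.sum_le_card_nsmul _ _ _ fun q _ => ?_
        exact fib_bound hTE T A s Ch (κ * d) gh hs hΔ hE.hi p.1 p.2 hp.1 hp.2 q (Sp p) hSH
      have h2 : ((Sp p).card : ℝ) * d ^ (s + 1) ≤ ε * n * d ^ s * (B * d ^ N) := by
        calc ((Sp p).card : ℝ) * d ^ (s + 1) ≤ ((Sp p).card : ℝ) * (κ * d) ^ (s + 1) := by
              refine mul_le_mul_of_nonneg_left ?_ (by positivity)
              refine pow_le_pow_left₀ hd0.le ?_ _
              nlinarith
          _ ≤ (hst A Ch s : ℝ) * (κ * d) ^ N := hbd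
          _ ≤ (ε * n * d ^ s) * (κ * d) ^ N :=
              mul_le_mul_of_nonneg_right hE.lt (by positivity)
          _ ≤ ε * n * d ^ s * (B * d ^ N) := by
              refine mul_le_mul_of_nonneg_left ?_ (le_trans (by positivity) hE.lt)
              rw [mul_pow]
              exact mul_le_mul_of_nonneg_right hκN (by positivity)
      have hdN : d ^ N = d * d ^ (N - 1) := by
        rw [← pow_succ']
        congr 1
        omega
      have h3 : ((Sp p).card : ℝ) ≤ ε * B * (n * d ^ (N - 1)) := by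
        have h4 : ((Sp p).card : ℝ) * d ^ (s + 1) ≤ (ε * B * (n * d ^ (N - 1))) * d ^ (s + 1) := by
          refine h2.trans (le_of_eq ?_)
          rw [hdN]
          ring
        exact le_of_mul_le_mul_right h4 (by positivity)
      refine h3.trans ?_
      have h5 : ε * B * (n * d ^ (N - 1)) ≤ δ / ((M + 1) * B) * B * (n * d ^ (N - 1)) :=
        mul_le_mul_of_nonneg_right (mul_le_mul_of_nonneg_right hε hB0.le) (by positivity)
      refine h5.trans ?_
      exact mul_le_mul_of_nonneg_left hlb (by positivity)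
    · have : Sp p = ∅ := by
        refine Finset.filter_eq_empty_iff.2 fun f _ hf => hp hf.1
      rw [this]
      simp only [Finset.card_empty, Nat.cast_zero]
      positivity
  calc (((Hm T A gh).filter fun f => ¬ NH T A s Ch gh f.1 f.2).card : ℝ)
      ≤ ((Finset.univ.biUnion Sp).card : ℝ) := Nat.cast_le.2 (Finset.card_le_card hsub)
    _ ≤ ((∑ p, (Sp p).card : ℕ) : ℝ) := Nat.cast_le.2 Finset.card_biUnion_le
    _ = ∑ p, ((Sp p).card : ℝ) := by rw [Nat.cast_sum]
    _ ≤ ∑ _p : I × (Fin s → I ⊕ T.R), δ / ((M + 1) * B) * B * H := Finset.sum_le_sum fun p _ => hone p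
    _ = M * (δ / ((M + 1) * B) * B * H) := by
        rw [Finset.sum_const, nsmul_eq_mul, Finset.card_univ]
    _ ≤ δ * H := by
        have e : (M : ℝ) * (δ / ((M + 1) * B) * B * H) = (M / (M + 1)) * (δ * H) := by
          field_simp
        rw [e]
        have h1 : (M : ℝ) / (M + 1) ≤ 1 := by
          rw [div_le_one (by positivity)]
          linarith
        have h2 : 0 ≤ δ * H := by positivity
        nlinarith

end

end Pool.Agent.helper21.IV
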